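import Pool.Agent.Y624.RF.LieQ
import Pool.Agent.Q202.LogReg.General

/-!
# Nilpotent varieties of Lie algebras are logically perfect and logically regular

The variety `Θ_{P,n}` of the Lie algebras over `P` which are nilpotent of class at most `n`, for
every field `P` and every `n ≥ 1`. Logical homogeneity of relatively free nilpotent Lie algebras
(in a language with one more symbol) is the earlier theorem `Y624.RF.lie_homogeneous`; new here
are the signature without negation, isotypic algebras and logical separability.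
-/

set_option autoImplicit false

namespace Pool.Agent.Results.MP_8011ed_lc.PerfectRegular

open FirstOrder FirstOrder.Language
open Pool.Agent.Helper771.LieHomog (LieFn lieLang)

universe u v w

/-- `H` is nilpotent of class at most `n`: the term `γ_{n+1}(H)` of the lower central series
(Mathlib's `lowerCentralSeries` with index `n`) vanishes, so `H` belongs to `Θ_{P,n}`. -/
def InTheta (P : Type u) [Field P] (n : ℕ) (H : Type v) [LieRing H] [LieAlgebra P H] : Prop :=
  LieModule.lowerCentralSeries P H H n = ⊥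

/-- `W` with the elements `x i`, `i ∈ X`, is the free algebra `W(X)` of `Θ_{P,n}`. -/
structure IsFree (P : Type u) [Field P] (n : ℕ) {X : Type w} (W : Type u) [LieRing W]
    [LieAlgebra P W] (x : X → W) : Prop where
  mem : InTheta P n W
  lift : ∀ (B : Type u) [LieRing B] [LieAlgebra P B], InTheta P n B →
    ∀ y : X → B, ∃! f : W →ₗ⁅P⁆ B, ∀ i, f (x i) = y i

/-- The function symbols: `+`, `0`, the bracket, and one unary symbol for every scalar. -/
inductive Fn (P : Type u) : ℕ → Type u
  | zero : Fn P 0
  | add : Fn P 2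
  | bracket : Fn P 2
  | smul (c : P) : Fn P 1

/-- The first-order signature of Lie algebras over `P`. -/
def lang (P : Type u) : FirstOrder.Language.{u, 0} := ⟨Fn P, fun _ => Empty⟩

/-- The interpretation of the function symbols in a Lie algebra. -/
def interp (P : Type u) [Field P] (A : Type v) [LieRing A] [LieAlgebra P A] :
    ∀ {n : ℕ}, Fn P n → (Fin n → A) → A
  | _, Fn.zero, _ => 0
  | _, Fn.add, xs => xs 0 + xs 1
  | _, Fn.bracket, xs => ⁅xs 0, xs 1⁆
  | _, Fn.smul c, xs => c • xs 0

/-- A Lie algebra as a first-order structure. -/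
instance lieStr (P : Type u) [Field P] (A : Type v) [LieRing A] [LieAlgebra P A] :
    (lang P).Structure A where
  funMap := fun f xs => interp P A f xs
  RelMap := fun r _ => r.elim

/-- The complete type `Tp^H(a)` of a tuple (a point) `a` in `H`. -/
def Tp (P : Type u) [Field P] {H : Type v} [LieRing H] [LieAlgebra P H] {k : ℕ}
    (a : Fin k → H) : Set ((lang P).Formula (Fin k)) :=
  Set.ofPred fun φ => φ.Realize a

/-- `H₁` and `H₂` are isotypic: for every `k` they realise the same types of `k`-tuples. -/
def Isotypic (P : Type u) [Field P] (H₁ : Type v) [LieRing H₁] [LieAlgebra P H₁]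
    (H₂ : Type w) [LieRing H₂] [LieAlgebra P H₂] : Prop :=
  ∀ k : ℕ, (Set.range fun a : Fin k → H₁ => Tp P a) = (Set.range fun a : Fin k → H₂ => Tp P a)

/-- `H` is logically separable in `Θ_{P,n}`: every algebra of `Θ_{P,n}` (in the universe `v`)
isotypic to `H` is isomorphic to `H`. -/
def LogicallySeparable (P : Type u) [Field P] (n : ℕ) (H : Type u) [LieRing H]
    [LieAlgebra P H] : Prop :=
  ∀ (H' : Type v) [LieRing H'] [LieAlgebra P H'], InTheta P n H' → Isotypic P H H' →
    Nonempty (H ≃ₗ⁅P⁆ H')

/-- `H` is logically homogeneous: two `k`-tuples have the same type iff some automorphism maps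
one to the other. -/
def LogicallyHomogeneous (P : Type u) [Field P] (H : Type v) [LieRing H] [LieAlgebra P H] :
    Prop :=
  ∀ (k : ℕ) (a b : Fin k → H), Tp P a = Tp P b ↔ ∃ σ : H ≃ₗ⁅P⁆ H, ∀ i, σ (a i) = b i

/-- `Θ_{P,n}` is logically regular: all `W(X)` with `X` finite are logically separable. -/
def LogicallyRegular (P : Type u) [Field P] (n : ℕ) : Prop :=
  ∀ (X : Type) [Finite X] (W : Type u) [LieRing W] [LieAlgebra P W] (x : X → W),
    IsFree P n W x → LogicallySeparable.{u, v} P n W

/-- `Θ_{P,n}` is logically perfect: all `W(X)` with `X` finite are logically homogeneous. -/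
def LogicallyPerfect (P : Type u) [Field P] (n : ℕ) : Prop :=
  ∀ (X : Type) [Finite X] (W : Type u) [LieRing W] [LieAlgebra P W] (x : X → W),
    IsFree P n W x → LogicallyHomogeneous P W

/-! ### Elimination of the symbol for negation -/

section Trans

variable {P : Type u} [Field P] {A : Type v} [LieRing A] [LieAlgebra P A]

/-- translation of terms -/
def trT {α : Type w} : (lieLang P).Term α → (lang P).Term α
  | .var a => .var a
  | .func (l := l) f ts =>
    match l, f, ts with
    | _, LieFn.zero, _ => Term.func (l := 0) (Fn.zero : Fn P 0) ![]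
    | _, LieFn.add, ts => Term.func (l := 2) (Fn.add : Fn P 2) (fun i => trT (ts i))
    | _, LieFn.neg, ts => Term.func (l := 1) (Fn.smul (-1) : Fn P 1) (fun i => trT (ts i))
    | _, LieFn.bracket, ts => Term.func (l := 2) (Fn.bracket : Fn P 2) (fun i => trT (ts i))
    | _, LieFn.smul c, ts => Term.func (l := 1) (Fn.smul c : Fn P 1) (fun i => trT (ts i))

theorem realize_trT {α : Type w} (t : (lieLang P).Term α) (v : α → A) :
    (trT t).realize v = t.realize v := by
  induction t with
  | var a => rfl
  | @func l f ts ih =>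
    match l, f with
    | _, LieFn.zero => rfl
    | _, LieFn.add =>
      change (trT (ts 0)).realize v + (trT (ts 1)).realize v = _
      rw [ih 0, ih 1]; rfl
    | _, LieFn.neg =>
      change (-1 : P) • (trT (ts 0)).realize v = _
      rw [ih 0, neg_one_smul]; rfl
    | _, LieFn.bracket =>
      change ⁅(trT (ts 0)).realize v, (trT (ts 1)).realize v⁆ = _
      rw [ih 0, ih 1]; rfl
    | _, LieFn.smul c =>
      change c • (trT (ts 0)).realize v = _
      rw [ih 0]; rfl

/-- translation of formulas -/
def trF {α : Type w} : ∀ {n : ℕ}, (lieLang P).BoundedFormula α n → (lang P).BoundedFormula α n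
  | _, .falsum => .falsum
  | _, .equal s t => .equal (trT s) (trT t)
  | _, .rel r _ => r.elim
  | _, .imp φ ψ => .imp (trF φ) (trF ψ)
  | _, .all φ => .all (trF φ)

theorem realize_trF {α : Type w} {n : ℕ} (φ : (lieLang P).BoundedFormula α n) (v : α → A) :
    ∀ xs : Fin n → A, (trF φ).Realize v xs ↔ φ.Realize v xs := by
  induction φ with
  | falsum => intro xs; exact Iff.rfl
  | equal s t =>
    intro xs
    change (trT s).realize _ = (trT t).realize _ ↔ s.realize _ = t.realize _
    rw [realize_trT, realize_trT]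
  | rel r => exact r.elim
  | imp φ ψ h1 h2 =>
    intro xs
    change ((trF φ).Realize v xs → (trF ψ).Realize v xs) ↔ (φ.Realize v xs → ψ.Realize v xs)
    rw [h1, h2]
  | all φ h =>
    intro xs
    change (∀ a, (trF φ).Realize v (Fin.snoc xs a)) ↔ ∀ a, φ.Realize v (Fin.snoc xs a)
    exact forall_congr' fun a => h _

end Trans

/-! ### Free algebras -/

section Free

variable {P : Type u} [Field P] {n : ℕ} {X : Type w} {W : Type u} [LieRing W] [LieAlgebra P W]
  {x : X → W}

open Pool.Agent.Helper771.LieHomog (gam map_mem_gam) in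
theorem inTheta_sub (hW : InTheta P n W) (S : LieSubalgebra P W) : InTheta P n S := by
  unfold InTheta at *
  rw [eq_bot_iff]
  intro z hz
  have h1 := map_mem_gam S.incl n z hz
  unfold gam at h1
  rw [hW] at h1
  have h2 : S.incl z = 0 := by simpa using h1
  have h3 : z = 0 := Subtype.ext h2
  rw [h3]
  exact zero_mem _

theorem IsFree.gen (hx : IsFree P n W x) (S : LieSubalgebra P W) (hS : ∀ i, x i ∈ S) :
    ∀ a, a ∈ S := by
  obtain ⟨f, hf, _⟩ := hx.lift S (inTheta_sub hx.mem S) (fun i => ⟨x i, hS i⟩)
  obtain ⟨g, _, hu⟩ := hx.lift W hx.mem x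
  have h1 : S.incl.comp f = LieHom.id := by
    rw [hu (S.incl.comp f) (fun i => by simp [hf]), hu LieHom.id (fun i => rfl)]
  intro a
  have h2 : S.incl (f a) = a := by
    have := DFunLike.congr_fun h1 a
    simpa using this
  rw [← h2]
  exact (f a).2

theorem IsFree.relFree (hx : IsFree P n W x) : Pool.Agent.Y624.RF.RelFreeLie P W x := by
  refine ⟨hx.gen, fun y => ?_⟩
  obtain ⟨f, hf, _⟩ := hx.lift W hx.mem y
  exact ⟨f, hf⟩

theorem IsFree.exists_term (hx : IsFree P n W x) (z : W) :
    ∃ t : (lang P).Term X, t.realize x = z := by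
  let T : LieSubalgebra P W :=
    { carrier := Set.ofPred fun z => ∃ t : (lang P).Term X, t.realize x = z
      add_mem' := by
        rintro a b ⟨s, rfl⟩ ⟨t, rfl⟩
        exact ⟨Language.Term.func (l := 2) (Fn.add : Fn P 2) ![s, t], rfl⟩
      zero_mem' := ⟨Language.Term.func (l := 0) (Fn.zero : Fn P 0) ![], rfl⟩
      smul_mem' := by
        rintro c a ⟨s, rfl⟩
        exact ⟨Language.Term.func (l := 1) (Fn.smul c : Fn P 1) ![s], rfl⟩
      lie_mem' := by
        rintro a b ⟨s, rfl⟩ ⟨t, rfl⟩
        exact ⟨Language.Term.func (l := 2) (Fn.bracket : Fn P 2) ![s, t], rfl⟩ }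
  exact hx.gen T (fun i => ⟨Language.Term.var i, rfl⟩) z

end Free

/-! ### Homomorphisms and first-order structures -/

section Equiv

variable {P : Type u} [Field P] {A : Type v} [LieRing A] [LieAlgebra P A]
  {B : Type w} [LieRing B] [LieAlgebra P B]

/-- an isomorphism of Lie algebras is an isomorphism of first-order structures -/
def toEquiv (f : A ≃ₗ⁅P⁆ B) : A ≃[lang P] B where
  toEquiv := f.toLinearEquiv.toEquiv
  map_fun' := by
    intro n g v
    match n, g with
    | _, Fn.zero => exact map_zero (f : A →ₗ⁅P⁆ B)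
    | _, Fn.add => exact map_add (f : A →ₗ⁅P⁆ B) (v 0) (v 1)
    | _, Fn.bracket => exact LieHom.map_lie (f : A →ₗ⁅P⁆ B) (v 0) (v 1)
    | _, Fn.smul c => exact map_smul (f : A →ₗ⁅P⁆ B) c (v 0)
  map_rel' := by intro n r; exact r.elim

/-- an isomorphism of first-order structures is an isomorphism of Lie algebras -/
theorem exists_lieEquiv (e : A ≃[lang P] B) : Nonempty (A ≃ₗ⁅P⁆ B) := by
  let f : A →ₗ⁅P⁆ B :=
    { toFun := e
      map_add' := fun a b => e.map_fun (Fn.add : Fn P 2) ![a, b]
      map_smul' := fun c a => e.map_fun (Fn.smul c : Fn P 1) ![a]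
      map_lie' := fun {a b} => e.map_fun (Fn.bracket : Fn P 2) ![a, b] }
  exact ⟨LieEquiv.ofBijective f e.bijective⟩

end Equiv

theorem perfect (P : Type u) [Field P] (n : ℕ) : LogicallyPerfect P n := by
  intro X _ W _ _ x hx k a b
  constructor
  · intro h
    have hreal : ∀ φ : (lang P).Formula (Fin k), φ.Realize a ↔ φ.Realize b :=
      Q202.LogReg.realize_iff_of_tp h
    refine Pool.Agent.Y624.RF.lie_homogeneous hx.relFree ⟨n, hx.mem⟩ k a b ?_
    intro φ
    have h1 := hreal (trF φ)
    unfold Formula.Realize at h1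
    rw [realize_trF, realize_trF] at h1
    exact h1
  · rintro ⟨σ, hab⟩
    ext φ
    change φ.Realize a ↔ φ.Realize b
    rw [← StrongHomClass.realize_formula (toEquiv σ) φ]
    have : (⇑(toEquiv σ) ∘ a) = b := by funext i; exact hab i
    rw [this]

theorem regular (P : Type u) [Field P] (n : ℕ) : LogicallyRegular.{u, v} P n := by
  intro X _ W _ _ x hx H' _ _ _ hiso
  have hperf := perfect P n X W x hx
  obtain ⟨r, ⟨e⟩⟩ := Finite.exists_equiv_fin X
  -- a generating tuple of positive length
  obtain ⟨k, hk, g, hg⟩ : ∃ (k : ℕ) (_ : 1 ≤ k) (g : Fin k → W),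
      ∀ z : W, ∃ t : (lang P).Term (Fin k), t.realize g = z := by
    refine ⟨r + 1, by omega, Fin.snoc (fun i => x (e.symm i)) 0, fun z => ?_⟩
    obtain ⟨t, ht⟩ := hx.exists_term z
    refine ⟨t.relabel (fun i => Fin.castSucc (e i)), ?_⟩
    rw [Term.realize_relabel, ← ht]
    congr 1
    funext i
    simp
  obtain ⟨E⟩ := Q202.LogReg.exists_equiv (L := lang P) (W := W) (H := H') hk g hg (by
    intro a b hab
    obtain ⟨σ, hab'⟩ := (hperf k a b).1 (by
      ext φ
      exact hab φ)
    exact ⟨toEquiv σ, hab'⟩) (fun k _ => hiso k)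
  exact exists_lieEquiv E

/-- The universal property of the quotient of the free Lie algebra by `γ_{n+1}`. -/
theorem exists_free (P : Type u) [Field P] (n : ℕ) (X : Type) :
    ∃ (W : Type u) (_ : LieRing W) (_ : LieAlgebra P W) (x : X → W), IsFree P n W x := by
  let F := FreeLieAlgebra P X
  let J : LieIdeal P F := LieModule.lowerCentralSeries P F F n
  refine ⟨F ⧸ J, inferInstance, inferInstance,
    fun i => Pool.Agent.Y624.RF.qJ J (FreeLieAlgebra.of P i),
    Pool.Agent.Y624.RF.nilp_quot J le_rfl, ?_⟩
  intro B _ _ hB y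
  let f : F →ₗ⁅P⁆ B := FreeLieAlgebra.lift P y
  let g₀ : F ⧸ J →ₗ[P] B :=
    J.toSubmodule.liftQ (f : F →ₗ[P] B) (by
      intro a ha
      have h1 := Pool.Agent.Helper771.LieHomog.map_mem_gam f n a ha
      unfold Pool.Agent.Helper771.LieHomog.gam at h1
      rw [hB] at h1
      simpa using h1)
  have hg : ∀ a, g₀ (Pool.Agent.Y624.RF.qJ J a) = f a := fun a => rfl
  let g : F ⧸ J →ₗ⁅P⁆ B := { g₀ with
    map_lie' := by
      intro a b
      obtain ⟨a, rfl⟩ := Pool.Agent.Y624.RF.qJ_surj J a
      obtain ⟨b, rfl⟩ := Pool.Agent.Y624.RF.qJ_surj J b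
      change g₀ ⁅Pool.Agent.Y624.RF.qJ J a, Pool.Agent.Y624.RF.qJ J b⁆ =
        ⁅g₀ (Pool.Agent.Y624.RF.qJ J a), g₀ (Pool.Agent.Y624.RF.qJ J b)⁆
      rw [← LieHom.map_lie, hg, hg, hg, LieHom.map_lie] }
  have hgx : ∀ i, g (Pool.Agent.Y624.RF.qJ J (FreeLieAlgebra.of P i)) = y i := by
    intro i
    change f (FreeLieAlgebra.of P i) = y i
    exact FreeLieAlgebra.lift_of_apply y i
  refine ⟨g, hgx, ?_⟩
  intro g' hg'
  have h1 : g'.comp (Pool.Agent.Y624.RF.qJ J) = g.comp (Pool.Agent.Y624.RF.qJ J) := by
    apply FreeLieAlgebra.hom_ext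
    intro i
    rw [LieHom.comp_apply, LieHom.comp_apply, hgx, hg']
  ext z
  obtain ⟨a, rfl⟩ := Pool.Agent.Y624.RF.qJ_surj J z
  exact DFunLike.congr_fun h1 a

/-- Complete answer to Q1 and Q2: for every field `P` and every `n ≥ 1` (indeed for `n = 0` too),
the variety `Θ_{P,n}` of the Lie algebras over `P` nilpotent of class at most `n` is logically
perfect and logically regular. (The last clause says that the free algebras `W(X)` exist, so that
the first two are not vacuous.) -/
theorem result (P : Type u) [Field P] (n : ℕ) :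
    LogicallyPerfect P n ∧ LogicallyRegular.{u, v} P n ∧
    ∀ (X : Type) [Finite X], ∃ (W : Type u) (_ : LieRing W) (_ : LieAlgebra P W) (x : X → W),
      IsFree P n W x :=
  ⟨perfect P n, regular P n, fun X _ => exists_free P n X⟩

end Pool.Agent.Results.MP_8011ed_lc.PerfectRegular
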